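import Pool.Agent.W_fc1c69_h34.Abstract
import Pool.Agent.W_fc1c69_h9.Main

/-!
# Bounded doubling index on most wavelength discs, for every smooth closed surface

`M` is a compact connected smooth surface, `G : RMet _ M` is a smooth Riemannian metric on it, and
`IsDistOf G` says that the distance of `M` is the Riemannian distance of `G`; so the geodesic discs
are the metric balls.  `IsEigenfunction stdBasis G lam φ` says that `φ` is smooth and satisfies
`Δ_G φ + lam φ = 0`.  All definitions which the statement uses are in this file.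
-/

open Bundle Metric
open scoped ContDiff Manifold

namespace Pool.Agent.Results.MP_fc1c69_an.SmoothSurfaces

section Riemannian

variable {E : Type} [NormedAddCommGroup E] [NormedSpace ℝ E] {M : Type} [MetricSpace M]
  [ChartedSpace E M] [IsManifold 𝓘(ℝ, E) ∞ M]

/-- Derivative in the direction of the vector `b i` of the basis `b` of the model space. -/
noncomputable def pd (b : Fin 2 → E) (i : Fin 2) (f : E → ℝ) (x : E) : ℝ := fderiv ℝ f x (b i)

/-- The Laplace-Beltrami operator, in linear coordinates with basis `b`, of the metric with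
coefficients `g`: `(det g)^(-1/2) ∑_i ∂_i ((det g)^(1/2) ∑_j g^{ij} ∂_j u)`. -/
noncomputable def lb (b : Fin 2 → E) (g : E → Matrix (Fin 2) (Fin 2) ℝ) (u : E → ℝ) (x : E) : ℝ :=
  (1 / √(g x).det) * ∑ i, pd b i (fun y => √(g y).det * ∑ j, (g y)⁻¹ i j * pd b j u y) x

variable (E M) in
/-- The smooth Riemannian metrics on the smooth manifold `M` (modelled on `E`). -/
abbrev RMet : Type :=
  ContMDiffRiemannianMetric 𝓘(ℝ, E) ∞ E (fun p : M => TangentSpace 𝓘(ℝ, E) p)

/-- The inner product, for the Riemannian metric `G`, of two tangent vectors at `p`. -/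
noncomputable def ip (G : RMet E M) (p : M) (u w : TangentSpace 𝓘(ℝ, E) p) : ℝ := G.inner p u w

/-- The coefficients of `G` in the chart at `p` (in linear coordinates with basis `b`), at the point
with coordinates `y`: `G (dψ b_i, dψ b_j)` for the inverse `ψ` of the chart. -/
noncomputable def gram (b : Fin 2 → E) (G : RMet E M) (p : M) (y : E) :
    Matrix (Fin 2) (Fin 2) ℝ :=
  Matrix.of fun i j => ip G ((extChartAt 𝓘(ℝ, E) p).symm y)
    (mfderiv 𝓘(ℝ, E) 𝓘(ℝ, E) (extChartAt 𝓘(ℝ, E) p).symm y (b i))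
    (mfderiv 𝓘(ℝ, E) 𝓘(ℝ, E) (extChartAt 𝓘(ℝ, E) p).symm y (b j))

/-- `φ` is a smooth function with `Δ_G φ + lam φ = 0`: in the chart at every point `p`, the
Laplace-Beltrami operator of the coefficients of `G` maps `φ` to `-lam φ`. -/
def IsEigenfunction (b : Fin 2 → E) (G : RMet E M) (lam : ℝ) (φ : M → ℝ) : Prop :=
  ContMDiff 𝓘(ℝ, E) 𝓘(ℝ, ℝ) ∞ φ ∧
  ∀ p : M, ∀ y ∈ (extChartAt 𝓘(ℝ, E) p).target,
    lb b (gram b G p) (fun x => φ ((extChartAt 𝓘(ℝ, E) p).symm x)) y =
      - lam * φ ((extChartAt 𝓘(ℝ, E) p).symm y)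

/-- The distance of `M` is the Riemannian distance of `G` (the infimum of the lengths, measured
with `G`, of the paths joining two points). -/
def IsDistOf (G : RMet E M) : Prop :=
  letI : RiemannianBundle (fun p : M => TangentSpace 𝓘(ℝ, E) p) := ⟨G.toRiemannianMetric⟩
  IsRiemannianManifold 𝓘(ℝ, E) M

end Riemannian

/-- The standard basis of the plane. -/
noncomputable def stdBasis (i : Fin 2) : EuclideanSpace ℝ (Fin 2) := EuclideanSpace.single i 1

/-- The doubling index `log₂ (sup_{2B} |φ| / sup_B |φ|)` of the disc `B = ball p r`. -/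
noncomputable def doublingIndex {M : Type} [MetricSpace M] (φ : M → ℝ) (p : M) (r : ℝ) : ℝ :=
  Real.logb 2 ((⨆ x : ball p (2 * r), |φ x|) / (⨆ x : ball p r, |φ x|))

/-- The disc `B = ball p r` is bad: `sup_B |φ| = 0` or its doubling index is larger than `K`. -/
def IsBad {M : Type} [MetricSpace M] (K : ℝ) (φ : M → ℝ) (p : M) (r : ℝ) : Prop :=
  ¬ (0 < (⨆ x : ball p r, |φ x|) ∧ doublingIndex φ p r ≤ K)

/-- The discs `ball (c i) r` cover `M`, and every point is in at most `C₁` of them. -/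
def IsCovering {M : Type} [MetricSpace M] (C₁ r : ℝ) {ι : Type} (c : ι → M) : Prop :=
  (⋃ i, ball (c i) r) = Set.univ ∧ ∀ p : M, ({i | p ∈ ball (c i) r}.ncard : ℝ) ≤ C₁

/-- For every smooth closed connected surface `M`, all `A > 0`, `C₁` and every `ε > 0` there is a
constant `K` such that for every eigenfunction and every covering by geodesic discs of radius
`A / √lam` with overlap at most `C₁`, at most the fraction `ε` of the discs is bad. -/
theorem result (M : Type) [MetricSpace M] [CompactSpace M] [ConnectedSpace M]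
    [ChartedSpace (EuclideanSpace ℝ (Fin 2)) M]
    [IsManifold 𝓘(ℝ, EuclideanSpace ℝ (Fin 2)) ∞ M] (G : RMet (EuclideanSpace ℝ (Fin 2)) M)
    (hG : IsDistOf G) (A C₁ ε : ℝ) (hA : 0 < A) (hε : 0 < ε) :
    ∃ K : ℝ, ∀ lam : ℝ, 0 < lam →
      ∀ φ : M → ℝ, IsEigenfunction stdBasis G lam φ → (∃ p, φ p ≠ 0) →
      ∀ (ι : Type) [Fintype ι] (c : ι → M), IsCovering C₁ (A / √lam) c →
        ({i | IsBad K φ (c i) (A / √lam)}.ncard : ℝ) ≤ ε * Fintype.card ι := by
  classical
  let _ : RiemannianBundle (fun p : M => TangentSpace 𝓘(ℝ, FC9.E2) p) := ⟨G.toRiemannianMetric⟩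
  have _ : IsRiemannianManifold 𝓘(ℝ, FC9.E2) M := hG
  obtain ⟨K, hK1, hK⟩ := FC34.abstract_theorem (M := M) (Eig := FC9.IsEigenfunction M)
    (fun p => FC9.exists_isoChart M p) A C₁ ε hA hε
  refine ⟨Real.logb 2 K, ?_⟩
  intro lam hlam φ hφ hne ι _ c hcov
  have hφ' : FC9.IsEigenfunction M lam φ := ⟨hφ.1, hφ.2⟩
  refine le_trans ?_ (hK lam φ hlam hφ' hne ι c hcov)
  rw [Nat.cast_le]
  apply Set.ncard_le_ncard _ (Set.toFinite _)
  intro i hi
  rw [Set.mem_ofPred_eq] at hi ⊢
  intro hgood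
  apply hi
  obtain ⟨p', hp', hp0, hp⟩ := hgood
  have hcont : Continuous φ := hφ.1.continuous
  obtain ⟨z0, -, hz0⟩ := isCompact_univ.exists_isMaxOn (Set.univ_nonempty (α := M))
    (hcont.abs.continuousOn)
  have hbdd : ∀ s : Set M, BddAbove (Set.range (fun z : s => |φ z|)) := by
    intro s
    refine ⟨|φ z0|, ?_⟩
    rintro _ ⟨z, rfl⟩
    exact hz0 (Set.mem_univ _)
  set r := A / √lam with hr
  have hr0 : 0 < r := div_pos hA (Real.sqrt_pos.2 hlam)
  have hKpos : 0 < K := by linarith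
  have hsB : |φ p'| ≤ ⨆ z : ball (c i) r, |φ z| :=
    le_ciSup (hbdd _) (⟨p', hp'⟩ : ball (c i) r)
  have hpos : 0 < ⨆ z : ball (c i) r, |φ z| := lt_of_lt_of_le (abs_pos.2 hp0) hsB
  refine ⟨hpos, ?_⟩
  have hp'2 : p' ∈ ball (c i) (2 * r) := ball_subset_ball (by linarith) hp'
  have hne2 : Nonempty (ball (c i) (2 * r)) := ⟨⟨p', hp'2⟩⟩
  have hs2B : (⨆ z : ball (c i) (2 * r), |φ z|) ≤ K * ⨆ z : ball (c i) r, |φ z| := by
    apply ciSup_le
    rintro ⟨z, hz⟩
    exact (hp z hz).trans (mul_le_mul_of_nonneg_left hsB hKpos.le)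
  have h2pos : 0 < ⨆ z : ball (c i) (2 * r), |φ z| :=
    lt_of_lt_of_le (abs_pos.2 hp0) (le_ciSup (hbdd _) (⟨p', hp'2⟩ : ball (c i) (2 * r)))
  unfold doublingIndex
  apply (Real.logb_le_logb (by norm_num) (by positivity) hKpos).2
  rw [div_le_iff₀ hpos]
  exact hs2B

end Pool.Agent.Results.MP_fc1c69_an.SmoothSurfaces
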